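import Pool.Agent.H336R5.PS.Defs
import Pool.Agent.H28R5.PS.TaskA
import Pool.Agent.H719R5.PS.TaskA1
import Pool.Agent.H468R5.PS.TaskA2
import Pool.Agent.H658R3.PS_TaskB
import Pool.Agent.H779R5.PS.TaskC
import Pool.Agent.H394R5.PS.TaskD
import Pool.Agent.H633R5.PS.TaskE
import Pool.Agent.H299R5.PS.TaskE2
import Pool.Agent.H982R5.PS.TaskG1
import Pool.Agent.H169R5.PS.TaskG2
import Pool.Agent.H927R5.PS.TaskH
import Pool.Agent.H336R5.PS.Main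
import Pool.Agent.H377R5.PS.L
set_option autoImplicit false

namespace Pool.Agent.H336R5.PS

open Filter Topology MeasureTheory

theorem hA1 : TaskA1 := Pool.Agent.H719R5.PS.taskA1 Pool.Agent.H28R5.PS.taskA

theorem hE2 : TaskE2 := Pool.Agent.H299R5.PS.taskE2
  (Pool.Agent.H468R5.PS.taskA2 Pool.Agent.H28R5.PS.taskA) Pool.Agent.H658R3.PS.taskB
  Pool.Agent.H779R5.PS.taskC Pool.Agent.H394R5.PS.taskD Pool.Agent.H633R5.PS.taskE

theorem final : ∃ c : ℝ, 0 < c ∧ ∀ᶠ N : ℕ in atTop, ∃ (M : ℕ) (a : ℕ → ℂ) (L : ℝ),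
      Tendsto (fun T : ℝ => (1 / (2 * T)) *
        ∫ t in (-T)..T, ‖∑ n ∈ Finset.Icc 1 M, a n * (n : ℂ) ^ (-((t : ℂ) * Complex.I))‖)
        atTop (𝓝 1) ∧
      Tendsto (fun T : ℝ => (1 / (2 * T)) *
        ∫ t in (-T)..T, ‖∑ n ∈ Finset.Icc 1 M,
          (if n ≤ N then a n else 0) * (n : ℂ) ^ (-((t : ℂ) * Complex.I))‖)
        atTop (𝓝 L) ∧
      c * (Real.log N / Real.log (Real.log N)) ≤ L :=
  main hA1 hE2 Pool.Agent.H982R5.PS.taskG1 Pool.Agent.H169R5.PS.taskG2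
    Pool.Agent.H927R5.PS.taskH Pool.Agent.H377R5.PSL.taskL

end Pool.Agent.H336R5.PS
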