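import Mathlib
set_option autoImplicit false

/-!
Lower bound for the norm of the partial sum operator on the Hardy space `H^1` of Dirichlet series:
definitions and statements of the tasks.
-/

namespace Pool.Agent.H336R5.PS

open Filter Topology MeasureTheory

/-- `g` has time mean `L` -/
def HasMean (g : ℝ → ℂ) (L : ℂ) : Prop :=
  Tendsto (fun T : ℝ => (1 / (2 * T) : ℂ) * ∫ t in (-T)..T, g t) atTop (𝓝 L)

/-- `u p t = 1 + cos (t log p)` -/
noncomputable def u (p : ℕ) (t : ℝ) : ℝ := 1 + Real.cos (t * Real.log p)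

/-- the Riesz product over the primes of `P` -/
noncomputable def f (P : Finset ℕ) (t : ℝ) : ℝ := ∏ p ∈ P, u p t

/-- lower bound for `f log f` -/
noncomputable def W (P : Finset ℕ) (t : ℝ) : ℝ :=
  ∑ p ∈ P, (∏ q ∈ P.erase p, u q t) * ((u p t - 1) + (u p t - 1) ^ 2 / 6)

/-- product of the elements of `U` -/
def D (U : Finset ℕ) : ℕ := ∏ p ∈ U, p

/-- the analytic completion of the Riesz product -/
noncomputable def F (P : Finset ℕ) (t : ℝ) : ℂ :=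
  1 + 2 * (1 / 2 : ℂ) ^ P.card *
    ∑ x ∈ (P.powerset ×ˢ P.powerset).filter (fun x => D x.1 < D x.2),
      Complex.exp (Complex.I * ((t * (Real.log (D x.2) - Real.log (D x.1)) : ℝ) : ℂ))

/-- the `H^1` norm of the Dirichlet polynomial with coefficients `a n`, `1 ≤ n ≤ M`
(the limit superior is a limit) -/
noncomputable def norm1 (a : ℕ → ℂ) (M : ℕ) : ℝ :=
  limsup (fun T : ℝ => (1 / (2 * T)) *
    ∫ t in (-T)..T, ‖∑ n ∈ Finset.Icc 1 M, a n * (n : ℂ) ^ (-((t : ℂ) * Complex.I))‖) atTop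

/-- A: mean of a product of trigonometric polynomials in `t log p`, `p ∈ P` -/
def TaskA : Prop := ∀ (P : Finset ℕ), (∀ p ∈ P, p.Prime) → ∀ Q : ℕ → ℤ → ℂ,
  HasMean (fun t => ∏ p ∈ P, ∑ j ∈ Finset.Icc (-2 : ℤ) 2,
    Q p j * Complex.exp (Complex.I * ((t * (j * Real.log p) : ℝ) : ℂ))) (∏ p ∈ P, Q p 0)

/-- A1: the mean of the Riesz product -/
def TaskA1 : Prop := ∀ (P : Finset ℕ), (∀ p ∈ P, p.Prime) → HasMean (fun t => (f P t : ℂ)) 1

/-- A2: the mean of `W` -/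
def TaskA2 : Prop := ∀ (P : Finset ℕ), (∀ p ∈ P, p.Prime) →
  HasMean (fun t => (W P t : ℂ)) ((P.card : ℂ) / 12)

/-- B: `W ≤ f log f` -/
def TaskB : Prop := ∀ (P : Finset ℕ) (t : ℝ), W P t ≤ f P t * Real.log (f P t)

/-- C: mean of `G log (1 + G)` for a trigonometric polynomial `G` with constant term `1`, other
frequencies positive, and nonnegative real part -/
def TaskC : Prop := ∀ (ι : Type) (s : Finset ι) (c : ι → ℂ) (lam : ι → ℝ) (G : ℝ → ℂ),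
  (∀ i ∈ s, 0 < lam i) →
  (∀ t, G t = 1 + ∑ i ∈ s, c i * Complex.exp (Complex.I * ((t * lam i : ℝ) : ℂ))) →
  (∀ t, 0 ≤ (G t).re) →
  HasMean (fun t => G t * Complex.log (1 + G t)) (Real.log 2)

/-- D: pointwise inequality -/
def TaskD : Prop := ∀ w : ℂ, 0 ≤ w.re →
  w.re * Real.log w.re - (w * Complex.log (1 + w)).re ≤ Real.pi / 2 * |w.im|

/-- E: the real part of `F` is the Riesz product -/
def TaskE : Prop := ∀ (P : Finset ℕ), (∀ p ∈ P, p.Prime) → ∀ t, (F P t).re = f P t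

/-- E2: the mean of the modulus of `1 + F` -/
def TaskE2 : Prop := ∀ (P : Finset ℕ), (∀ p ∈ P, p.Prime) →
  2 / Real.pi * ((P.card : ℝ) / 12 - Real.log 2) ≤
    limsup (fun T : ℝ => (1 / (2 * T)) * ∫ t in (-T)..T, ‖1 + F P t‖) atTop

/-- coefficients of the extremal Dirichlet polynomial -/
noncomputable def coef (P : Finset ℕ) (m : ℕ) (n : ℕ) : ℂ :=
  (1 / 2 : ℂ) ^ P.card *
    (((P.powerset ×ˢ P.powerset).filter (fun x => m * D (P \ x.2) * D x.1 = n)).card : ℂ)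

/-- G1: the full polynomial -/
def TaskG1 : Prop := ∀ (P : Finset ℕ), (∀ p ∈ P, p.Prime) → ∀ m : ℕ, 1 ≤ m → ∀ t : ℝ,
  ‖∑ n ∈ Finset.Icc 1 (m * D P ^ 2), coef P m n * (n : ℂ) ^ (-((t : ℂ) * Complex.I))‖ = f P t

/-- G2: the partial sum -/
def TaskG2 : Prop := ∀ (P : Finset ℕ), (∀ p ∈ P, p.Prime) → ∀ N : ℕ, D P ^ 2 ≤ N → ∀ t : ℝ,
  ‖∑ n ∈ Finset.Icc 1 N, coef P (N / D P) n * (n : ℂ) ^ (-((t : ℂ) * Complex.I))‖ =
    ‖1 + F P t‖ / 2

/-- H: choice of the primes -/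
def TaskH : Prop := ∃ c : ℝ, 0 < c ∧ ∀ᶠ N : ℕ in atTop, ∃ P : Finset ℕ, (∀ p ∈ P, p.Prime) ∧
  D P ^ 2 ≤ N ∧
  c * (Real.log N / Real.log (Real.log N)) ≤ 1 / Real.pi * ((P.card : ℝ) / 12 - Real.log 2)

end Pool.Agent.H336R5.PS
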