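import Pool.Agent.H336R5.PS.Defs
set_option autoImplicit false

namespace Pool.Agent.H336R5.PS

open Filter Topology MeasureTheory

/-- L: the mean of the modulus of a Dirichlet polynomial on the imaginary axis exists -/
def TaskL : Prop := ∀ (a : ℕ → ℂ) (M : ℕ), ∃ L : ℝ,
  Tendsto (fun T : ℝ => (1 / (2 * T)) *
    ∫ t in (-T)..T, ‖∑ n ∈ Finset.Icc 1 M, a n * (n : ℂ) ^ (-((t : ℂ) * Complex.I))‖) atTop (𝓝 L)

end Pool.Agent.H336R5.PS
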