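import Pool.Agent.H336R5.PS.Defs2
set_option autoImplicit false

namespace Pool.Agent.H336R5.PS

open Filter Topology MeasureTheory

theorem main (hA1 : TaskA1) (hE2 : TaskE2) (hG1 : TaskG1) (hG2 : TaskG2) (hH : TaskH)
    (hL : TaskL) :
    ∃ c : ℝ, 0 < c ∧ ∀ᶠ N : ℕ in atTop, ∃ (M : ℕ) (a : ℕ → ℂ) (L : ℝ),
      Tendsto (fun T : ℝ => (1 / (2 * T)) *
        ∫ t in (-T)..T, ‖∑ n ∈ Finset.Icc 1 M, a n * (n : ℂ) ^ (-((t : ℂ) * Complex.I))‖)
        atTop (𝓝 1) ∧
      Tendsto (fun T : ℝ => (1 / (2 * T)) *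
        ∫ t in (-T)..T, ‖∑ n ∈ Finset.Icc 1 M,
          (if n ≤ N then a n else 0) * (n : ℂ) ^ (-((t : ℂ) * Complex.I))‖)
        atTop (𝓝 L) ∧
      c * (Real.log N / Real.log (Real.log N)) ≤ L := by
  obtain ⟨c, hc, hN⟩ := hH
  refine ⟨c, hc, ?_⟩
  filter_upwards [hN] with N hN
  obtain ⟨P, hP, hPN, hcP⟩ := hN
  have hA : 1 ≤ D P := Finset.one_le_prod' (fun p hp => (hP p hp).one_le)
  have hAm : D P ≤ N / D P := by
    rw [Nat.le_div_iff_mul_le (by omega)]; nlinarith [hPN]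
  have hm : 1 ≤ N / D P := le_trans hA hAm
  have hNM : N ≤ N / D P * D P ^ 2 := by
    have h1 : N < (N / D P + 1) * D P := by
      have := Nat.lt_div_mul_add (a := N) (b := D P) (by omega)
      nlinarith
    rcases Nat.eq_or_lt_of_le hA with h | h
    · rw [← h]; simp
    · nlinarith
  have hint : ∀ t : ℝ, (∑ n ∈ Finset.Icc 1 (N / D P * D P ^ 2),
      (if n ≤ N then coef P (N / D P) n else 0) * (n : ℂ) ^ (-((t : ℂ) * Complex.I))) =
      ∑ n ∈ Finset.Icc 1 N, coef P (N / D P) n * (n : ℂ) ^ (-((t : ℂ) * Complex.I)) := by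
    intro t
    have hsub : Finset.Icc 1 N ⊆ Finset.Icc 1 (N / D P * D P ^ 2) :=
      Finset.Icc_subset_Icc_right hNM
    rw [← Finset.sum_subset hsub]
    · refine Finset.sum_congr rfl fun n hn => ?_
      rw [if_pos (Finset.mem_Icc.mp hn).2]
    · intro n hn hn'
      rw [Finset.mem_Icc] at hn hn'
      rw [if_neg (fun h => hn' ⟨hn.1, h⟩), zero_mul]
  obtain ⟨L, hLim⟩ := hL (fun n => if n ≤ N then coef P (N / D P) n else 0)
    (N / D P * D P ^ 2)
  refine ⟨N / D P * D P ^ 2, coef P (N / D P), L, ?_, hLim, ?_⟩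
  · have h1 := hA1 P hP
    have h2 := (Complex.continuous_re.tendsto _).comp h1
    simp only [Complex.one_re] at h2
    refine h2.congr fun T => ?_
    simp only [Function.comp]
    rw [intervalIntegral.integral_ofReal]
    have e : (1 / (2 * (T : ℂ))) * (((∫ t in (-T)..T, f P t) : ℝ) : ℂ) =
        ((1 / (2 * T) * ∫ t in (-T)..T, f P t : ℝ) : ℂ) := by
      push_cast; ring
    rw [e, Complex.ofReal_re]
    congr 1
    exact intervalIntegral.integral_congr fun t _ => (hG1 P hP (N / D P) hm t).symm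
  · have h2 := hE2 P hP
    have h3 : Tendsto (fun T : ℝ => (1 / (2 * T)) * ∫ t in (-T)..T, ‖1 + F P t‖) atTop
        (𝓝 (2 * L)) := by
      refine (hLim.const_mul 2).congr fun T => ?_
      have e : (∫ t in (-T)..T, ‖∑ n ∈ Finset.Icc 1 (N / D P * D P ^ 2),
          (if n ≤ N then coef P (N / D P) n else 0) *
            (n : ℂ) ^ (-((t : ℂ) * Complex.I))‖) = ∫ t in (-T)..T, ‖1 + F P t‖ / 2 := by
        refine intervalIntegral.integral_congr fun t _ => ?_
        rw [hint t, hG2 P hP N hPN t]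
      rw [e, intervalIntegral.integral_div]
      ring
    rw [h3.limsup_eq] at h2
    have h4 : 1 / Real.pi * ((P.card : ℝ) / 12 - Real.log 2) =
        (2 / Real.pi * ((P.card : ℝ) / 12 - Real.log 2)) / 2 := by ring
    rw [h4] at hcP
    linarith

end Pool.Agent.H336R5.PS
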